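import Pool.Agent.X142.HZ.Basic

/-!
# The differences are nonzero algebraic multiples of `π ^ 3`; the denominators `3`, `4`, `6`
-/

set_option autoImplicit false

namespace Pool.Agent.X142.HZ

open Finset Real

lemma B3_rat (x : ℚ) : IsAlgebraic ℤ (B3 x) := by
  have h : B3 x = algebraMap ℚ ℝ ((Polynomial.bernoulli 3).eval x) := by
    unfold B3
    have h1 := Polynomial.eval_map_algebraMap (B := ℝ) (Polynomial.bernoulli 3) ((x : ℚ) : ℝ)
    rw [h1]
    exact Polynomial.aeval_algebraMap_apply ℝ x (Polynomial.bernoulli 3)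
  rw [h]
  have h2 : IsAlgebraic ℚ (algebraMap ℚ ℝ ((Polynomial.bernoulli 3).eval x)) := isAlgebraic_algebraMap _
  exact (IsFractionRing.isAlgebraic_iff ℤ ℚ ℝ).2 h2

lemma rat_alg (x : ℚ) : IsAlgebraic ℤ (x : ℝ) := by
  have h2 : IsAlgebraic ℚ (algebraMap ℚ ℝ x) := isAlgebraic_algebraMap _
  exact (IsFractionRing.isAlgebraic_iff ℤ ℚ ℝ).2 h2

lemma cf_alg (a q : ℕ) : IsAlgebraic ℤ (cf a q) := by
  unfold cf
  apply IsAlgebraic.mul
  · have := rat_alg (4 * (q : ℚ) ^ 2 / 3)
    push_cast at this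
    exact this
  · have hs : ∀ s : Finset ℕ, IsAlgebraic ℤ (∑ b ∈ s, sin (2 * π * b * a / q) * B3 (b / q)) := by
      intro s
      induction s using Finset.induction_on with
      | empty => rw [sum_empty]; exact isAlgebraic_zero
      | insert b s hb ih =>
        rw [sum_insert hb]
        apply IsAlgebraic.add _ ih
        apply IsAlgebraic.mul
        · have h1 := Real.isAlgebraic_sin_rat_mul_pi (2 * b * a / q)
          have e : (((2 * b * a / q : ℚ) : ℝ)) * π = 2 * π * b * a / q := by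
            push_cast
            ring
          rwa [e] at h1
        · have h1 := B3_rat (b / q)
          push_cast at h1
          exact h1
    exact hs _

lemma hz_lt (x y : ℝ) (hx : 0 < x) (hxy : x < y) : hz y < hz x := by
  unfold hz
  have h : ∀ n : ℕ, 1 / ((n : ℝ) + y) ^ 3 < 1 / ((n : ℝ) + x) ^ 3 := by
    intro n
    have h0 : (0 : ℝ) ≤ n := Nat.cast_nonneg n
    apply one_div_lt_one_div_of_lt (by positivity)
    exact pow_lt_pow_left₀ (by linarith) (by positivity) (by norm_num)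
  exact (summable_hz y (hx.trans hxy)).tsum_lt_tsum (fun n => (h n).le) (h 0) (summable_hz x hx)

lemma hz_ne (x : ℝ) (hx0 : 0 < x) (hx1 : x < 1) (hx : x ≠ 1 / 2) : hz x - hz (1 - x) ≠ 0 := by
  rcases lt_or_gt_of_ne hx with h | h
  · have := hz_lt x (1 - x) hx0 (by linarith)
    linarith
  · have := hz_lt (1 - x) x (by linarith) (by linarith)
    linarith

/-- the difference is a nonzero algebraic multiple of `π ^ 3` -/
theorem hz_sub_alg (x : ℚ) (hx0 : 0 < x) (hx1 : x < 1) (hx : x ≠ 1 / 2) :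
    ∃ α : ℝ, IsAlgebraic ℤ α ∧ α ≠ 0 ∧ hz x - hz (1 - x) = α * π ^ 3 := by
  obtain ⟨a, ha⟩ : ∃ a : ℕ, (a : ℤ) = x.num := by
    have := Rat.num_pos.2 hx0
    exact ⟨x.num.toNat, Int.toNat_of_nonneg this.le⟩
  have hxe : x = a / x.den := by
    conv_lhs => rw [← Rat.num_div_den x, ← ha]
    push_cast
    rfl
  have ha0 : 0 < a := by
    have := Rat.num_pos.2 hx0
    omega
  have haq : a < x.den := by
    rw [hxe, div_lt_one (by exact_mod_cast x.den_pos)] at hx1
    exact_mod_cast hx1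
  have h := hz_sub x.den a ha0 haq
  have hxR : (x : ℝ) = a / x.den := by
    conv_lhs => rw [hxe]
    push_cast
    rfl
  rw [← hxR] at h
  refine ⟨cf a x.den, cf_alg _ _, ?_, h⟩
  intro h0
  rw [h0, zero_mul] at h
  refine hz_ne x (by exact_mod_cast hx0) (by exact_mod_cast hx1) ?_ h
  intro h1
  apply hx
  have : ((x : ℚ) : ℝ) = ((1 / 2 : ℚ) : ℝ) := by rw [h1]; push_cast; rfl
  exact_mod_cast this

/-- the distribution relation -/
lemma distribution (n : ℕ) : ∑ j ∈ range (n + 1), hz (((j : ℝ) + 1) / (n + 1)) = ((n : ℝ) + 1) ^ 3 * hz 1 := by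
  have h1 := Nat.sumByResidueClasses (summable_hz 1 one_pos) (n + 1)
  have h2 : ∀ j : ℕ, ∑' m : ℕ, 1 / (((j + (n + 1) * m : ℕ) : ℝ) + 1) ^ 3 =
      1 / ((n : ℝ) + 1) ^ 3 * hz (((j : ℝ) + 1) / (n + 1)) := by
    intro j
    unfold hz
    rw [← tsum_mul_left]
    apply tsum_congr
    intro m
    have h3 : (((j + (n + 1) * m : ℕ) : ℝ) + 1) = ((n : ℝ) + 1) * ((m : ℝ) + ((j : ℝ) + 1) / (n + 1)) := by
      push_cast
      field_simp
      ring
    rw [h3, mul_pow]
    have h4 : (0 : ℝ) < (m : ℝ) + ((j : ℝ) + 1) / (n + 1) := by positivity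
    field_simp
  have h5 : hz 1 = ∑ j : Fin (n + 1), ∑' m : ℕ, 1 / (((j : ℕ) + (n + 1) * m : ℕ) + (1 : ℝ)) ^ 3 := h1
  rw [h5]
  have h6 : ∑ j : Fin (n + 1), ∑' m : ℕ, 1 / (((j : ℕ) + (n + 1) * m : ℕ) + (1 : ℝ)) ^ 3 =
      ∑ j ∈ range (n + 1), 1 / ((n : ℝ) + 1) ^ 3 * hz (((j : ℝ) + 1) / (n + 1)) := by
    rw [← Fin.sum_univ_eq_sum_range (fun j => 1 / ((n : ℝ) + 1) ^ 3 * hz (((j : ℝ) + 1) / (n + 1))) (n + 1)]
    apply sum_congr rfl
    intro j _
    exact h2 j
  rw [h6, ← mul_sum, ← mul_assoc, mul_one_div_cancel (by positivity), one_mul]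

lemma hz_half : hz (1 / 2) = 7 * hz 1 := by
  have h := distribution 1
  norm_num [sum_range_succ] at h
  norm_num
  linarith

lemma sum_third : hz (1 / 3) + hz (2 / 3) = 26 * hz 1 := by
  have h := distribution 2
  norm_num [sum_range_succ] at h
  norm_num
  linarith

lemma sum_quarter : hz (1 / 4) + hz (3 / 4) = 56 * hz 1 := by
  have h := distribution 3
  have h2 := hz_half
  norm_num [sum_range_succ] at h h2
  norm_num
  linarith

lemma sum_sixth : hz (1 / 6) + hz (5 / 6) = 182 * hz 1 := by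
  have h := distribution 5
  have h2 := hz_half
  have h3 := sum_third
  norm_num [sum_range_succ] at h h2 h3
  norm_num
  linarith

lemma B3_eq (x : ℝ) : B3 x = x ^ 3 - 3 / 2 * x ^ 2 + x / 2 := by
  unfold B3
  simp_rw [Polynomial.bernoulli, Finset.sum_range_succ, Polynomial.map_add, Polynomial.eval_add]
  simp only [Finset.range_zero, Finset.sum_empty, Polynomial.map_zero, Polynomial.eval_zero,
    Polynomial.map_monomial, Polynomial.eval_monomial]
  norm_num [bernoulli_zero, bernoulli_one, bernoulli_two, Nat.choose]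
  ring

lemma diff_quarter : hz (1 / 4) - hz (3 / 4) = 2 * π ^ 3 := by
  have h := hz_sub 4 1 one_pos (by norm_num)
  have e : cf 1 4 = 2 := by
    unfold cf
    have s1 : sin (2 * π * 1 * 1 / 4) = 1 := by
      rw [show 2 * π * 1 * 1 / 4 = π / 2 by ring, sin_pi_div_two]
    have s2 : sin (2 * π * 2 * 1 / 4) = 0 := by
      rw [show 2 * π * 2 * 1 / 4 = π by ring, sin_pi]
    have s3 : sin (2 * π * 3 * 1 / 4) = -1 := by
      rw [show 2 * π * 3 * 1 / 4 = π / 2 + π by ring, sin_add_pi, sin_pi_div_two]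
    simp only [sum_range_succ, range_zero, sum_empty]
    push_cast
    rw [s1, s2, s3]
    simp only [B3_eq]
    norm_num
  rw [e] at h
  norm_num at h ⊢
  exact h

lemma diff_third : hz (1 / 3) - hz (2 / 3) = 4 * √3 / 9 * π ^ 3 := by
  have h := hz_sub 3 1 one_pos (by norm_num)
  have e : cf 1 3 = 4 * √3 / 9 := by
    unfold cf
    have s1 : sin (2 * π * 1 * 1 / 3) = √3 / 2 := by
      rw [show 2 * π * 1 * 1 / 3 = π - π / 3 by ring, sin_pi_sub, sin_pi_div_three]
    have s2 : sin (2 * π * 2 * 1 / 3) = -(√3 / 2) := by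
      rw [show 2 * π * 2 * 1 / 3 = π / 3 + π by ring, sin_add_pi, sin_pi_div_three]
    simp only [sum_range_succ, range_zero, sum_empty]
    push_cast
    rw [s1, s2]
    simp only [B3_eq]
    norm_num
    ring
  rw [e] at h
  norm_num at h ⊢
  exact h

lemma diff_sixth : hz (1 / 6) - hz (5 / 6) = 4 * √3 * π ^ 3 := by
  have h := hz_sub 6 1 one_pos (by norm_num)
  have e : cf 1 6 = 4 * √3 := by
    unfold cf
    have s1 : sin (2 * π * 1 * 1 / 6) = √3 / 2 := by
      rw [show 2 * π * 1 * 1 / 6 = π / 3 by ring, sin_pi_div_three]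
    have s2 : sin (2 * π * 2 * 1 / 6) = √3 / 2 := by
      rw [show 2 * π * 2 * 1 / 6 = π - π / 3 by ring, sin_pi_sub, sin_pi_div_three]
    have s3 : sin (2 * π * 3 * 1 / 6) = 0 := by
      rw [show 2 * π * 3 * 1 / 6 = π by ring, sin_pi]
    have s4 : sin (2 * π * 4 * 1 / 6) = -(√3 / 2) := by
      rw [show 2 * π * 4 * 1 / 6 = π / 3 + π by ring, sin_add_pi, sin_pi_div_three]
    have s5 : sin (2 * π * 5 * 1 / 6) = -(√3 / 2) := by
      rw [show 2 * π * 5 * 1 / 6 = (π - π / 3) + π by ring, sin_add_pi, sin_pi_sub, sin_pi_div_three]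
    simp only [sum_range_succ, range_zero, sum_empty]
    push_cast
    rw [s1, s2, s3, s4, s5]
    simp only [B3_eq]
    norm_num
    ring
  rw [e] at h
  norm_num at h ⊢
  exact h

end Pool.Agent.X142.HZ
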