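import Mathlib

/-!
# Hurwitz zeta values at `3`: the difference `ζ(3, x) - ζ(3, 1 - x)` for rational `x`
-/

set_option autoImplicit false

namespace Pool.Agent.X142.HZ

open Finset Real

/-- `ζ(3, x)` -/
noncomputable def hz (x : ℝ) : ℝ := ∑' n : ℕ, 1 / ((n : ℝ) + x) ^ 3

lemma summable_hz (x : ℝ) (hx : 0 < x) : Summable fun n : ℕ => 1 / ((n : ℝ) + x) ^ 3 := by
  have h := (Real.summable_one_div_nat_pow (p := 3)).2 (by norm_num)
  rw [← summable_nat_add_iff 1]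
  have h2 := (summable_nat_add_iff 1).2 h
  refine Summable.of_nonneg_of_le (fun n => by positivity) (fun n => ?_) h2
  have h3 : (0 : ℝ) < ((n + 1 : ℕ) : ℝ) := by exact_mod_cast Nat.succ_pos n
  apply one_div_le_one_div_of_le (by positivity)
  exact pow_le_pow_left₀ h3.le (by linarith) 3

lemma sum_cos (q : ℕ) (hq : 0 < q) (m : ℤ) :
    ∑ b ∈ range q, cos (2 * π * b * m / q) = if (q : ℤ) ∣ m then (q : ℝ) else 0 := by
  have hq0 : (q : ℂ) ≠ 0 := by exact_mod_cast hq.ne'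
  obtain ⟨z, hz⟩ : ∃ z : ℂ, z = Complex.exp (2 * π * Complex.I * (m / q)) := ⟨_, rfl⟩
  have hb : ∀ b : ℕ, cos (2 * π * b * m / q) = (z ^ b).re := by
    intro b
    rw [hz, ← Complex.exp_nat_mul]
    have e : (b : ℂ) * (2 * π * Complex.I * (m / q)) = ((2 * π * b * m / q : ℝ) : ℂ) * Complex.I := by
      push_cast
      ring
    rw [e, Complex.exp_ofReal_mul_I_re]
  rw [sum_congr rfl fun b _ => hb b, ← Complex.re_sum]
  have hzq : z ^ q = 1 := by
    rw [hz, ← Complex.exp_nat_mul]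
    have e : (q : ℂ) * (2 * π * Complex.I * (m / q)) = m * (2 * π * Complex.I) := by
      field_simp
    rw [e, Complex.exp_int_mul_two_pi_mul_I]
  by_cases hz1 : z = 1
  · have hdvd : (q : ℤ) ∣ m := by
      rw [hz, Complex.exp_eq_one_iff] at hz1
      obtain ⟨k, hk⟩ := hz1
      have h1 : (m : ℂ) / q = k := by
        have h2 : (2 * π * Complex.I : ℂ) ≠ 0 := Complex.two_pi_I_ne_zero
        have h3 : (2 * π * Complex.I : ℂ) * ((m : ℂ) / q) = (2 * π * Complex.I : ℂ) * k := by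
          rw [hk]; ring
        exact mul_left_cancel₀ h2 h3
      rw [div_eq_iff hq0] at h1
      refine ⟨k, ?_⟩
      have h4 : (m : ℂ) = ((q * k : ℤ) : ℂ) := by rw [h1]; push_cast; ring
      exact_mod_cast h4
    rw [if_pos hdvd, hz1]
    simp
  · have hnd : ¬ (q : ℤ) ∣ m := by
      rintro ⟨k, rfl⟩
      apply hz1
      rw [hz, Complex.exp_eq_one_iff]
      refine ⟨k, ?_⟩
      push_cast
      field_simp
    rw [if_neg hnd, geom_sum_eq hz1, hzq]
    simp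

lemma sum_sin_sin (q : ℕ) (hq : 0 < q) (a n : ℤ) :
    ∑ b ∈ range q, sin (2 * π * b * a / q) * sin (2 * π * b * n / q) =
      (if (q : ℤ) ∣ n - a then (q : ℝ) / 2 else 0) - (if (q : ℤ) ∣ n + a then (q : ℝ) / 2 else 0) := by
  have h : ∀ b ∈ range q, sin (2 * π * b * a / q) * sin (2 * π * b * n / q) =
      (cos (2 * π * b * ((n - a : ℤ) : ℝ) / q) - cos (2 * π * b * ((n + a : ℤ) : ℝ) / q)) / 2 := by
    intro b _
    have e1 : 2 * π * b * ((n - a : ℤ) : ℝ) / q = 2 * π * b * n / q - 2 * π * b * a / q := by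
      push_cast; ring
    have e2 : 2 * π * b * ((n + a : ℤ) : ℝ) / q = 2 * π * b * n / q + 2 * π * b * a / q := by
      push_cast; ring
    rw [e1, e2, cos_sub, cos_add]
    ring
  rw [sum_congr rfl h, ← sum_div, sum_sub_distrib, sum_cos q hq, sum_cos q hq]
  split_ifs <;> ring

/-- the third Bernoulli polynomial -/
noncomputable def B3 (x : ℝ) : ℝ := (Polynomial.map (algebraMap ℚ ℝ) (Polynomial.bernoulli 3)).eval x

lemma hasSum_sin (x : ℝ) (hx : x ∈ Set.Icc (0 : ℝ) 1) :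
    HasSum (fun n : ℕ => 1 / (n : ℝ) ^ 3 * sin (2 * π * n * x)) (2 / 3 * π ^ 3 * B3 x) := by
  have h := hasSum_one_div_nat_pow_mul_sin one_ne_zero hx
  have e : 2 / 3 * π ^ 3 * B3 x = (-1 : ℝ) ^ (1 + 1) * (2 * π) ^ (2 * 1 + 1) / 2 / ((2 * 1 + 1).factorial : ℝ) *
        (Polynomial.map (algebraMap ℚ ℝ) (Polynomial.bernoulli (2 * 1 + 1))).eval x := by
    have e0 : ((2 * 1 + 1).factorial : ℝ) = 6 := by norm_num [Nat.factorial]
    rw [e0]
    unfold B3
    show 2 / 3 * π ^ 3 * (Polynomial.map (algebraMap ℚ ℝ) (Polynomial.bernoulli 3)).eval x =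
      (-1 : ℝ) ^ 2 * (2 * π) ^ 3 / 2 / 6 * (Polynomial.map (algebraMap ℚ ℝ) (Polynomial.bernoulli 3)).eval x
    ring
  rw [e]
  exact h

lemma tsum_class (q a : ℕ) (ha0 : 0 < a) (haq : a < q) (c : ℝ) :
    (Summable fun n : ℕ => 1 / (n : ℝ) ^ 3 * (if (q : ℤ) ∣ (n : ℤ) - a then c else 0)) ∧
    ∑' n : ℕ, 1 / (n : ℝ) ^ 3 * (if (q : ℤ) ∣ (n : ℤ) - a then c else 0)
      = c / (q : ℝ) ^ 3 * hz (a / q) := by
  have hqR : (0 : ℝ) < q := by exact_mod_cast (ha0.trans haq)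
  obtain ⟨f, hf⟩ : ∃ f : ℕ → ℝ, f = fun n : ℕ => 1 / (n : ℝ) ^ 3 *
    (if (q : ℤ) ∣ (n : ℤ) - a then c else 0) := ⟨_, rfl⟩
  have hinj : Function.Injective fun m : ℕ => a + q * m := by
    intro m m' h
    have h1 : q * m = q * m' := by
      have : a + q * m = a + q * m' := h
      omega
    exact Nat.eq_of_mul_eq_mul_left (ha0.trans haq) h1
  have hsupp : Function.support f ⊆ Set.range fun m : ℕ => a + q * m := by
    intro n hn
    rw [Function.mem_support, hf] at hn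
    have h1 : (q : ℤ) ∣ (n : ℤ) - a := by
      by_contra h
      simp only [if_neg h, mul_zero, ne_eq, not_true_eq_false] at hn
    obtain ⟨k, hk⟩ := h1
    have hk0 : 0 ≤ k := by
      by_contra hneg
      have h2 : k ≤ -1 := by omega
      have h3 : (q : ℤ) * k ≤ (q : ℤ) * (-1) :=
        mul_le_mul_of_nonneg_left h2 (Int.natCast_nonneg q)
      have h4 : (a : ℤ) < q := by exact_mod_cast haq
      have h5 : (0 : ℤ) ≤ n := Int.natCast_nonneg n
      omega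
    refine ⟨k.toNat, ?_⟩
    have h6 : ((k.toNat : ℕ) : ℤ) = k := Int.toNat_of_nonneg hk0
    have h7 : ((a + q * k.toNat : ℕ) : ℤ) = n := by
      push_cast
      rw [h6]
      omega
    exact_mod_cast h7
  have hval : ∀ m : ℕ, f (a + q * m) = c / (q : ℝ) ^ 3 * (1 / ((m : ℝ) + a / q) ^ 3) := by
    intro m
    rw [hf]
    have h1 : (q : ℤ) ∣ ((a + q * m : ℕ) : ℤ) - a := ⟨m, by push_cast; ring⟩
    simp only [if_pos h1]
    have h2 : ((a + q * m : ℕ) : ℝ) = q * ((m : ℝ) + a / q) := by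
      push_cast
      field_simp
      ring
    rw [h2, mul_pow]
    have h3 : (0 : ℝ) < (m : ℝ) + a / q := by
      have : (0 : ℝ) < a := by exact_mod_cast ha0
      positivity
    field_simp
  have hs : Summable (f ∘ fun m : ℕ => a + q * m) := by
    have h1 := (summable_hz ((a : ℝ) / q) (by
      have : (0 : ℝ) < a := by exact_mod_cast ha0
      positivity)).mul_left (c / (q : ℝ) ^ 3)
    exact h1.congr fun m => by rw [Function.comp, hval]
  constructor
  · have h1 : Summable f := (hinj.summable_iff fun x hx => by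
      by_contra h
      exact hx (hsupp h)).1 hs
    rw [hf] at h1
    exact h1
  · have h1 : ∑' m : ℕ, f (a + q * m) = ∑' n, f n := hinj.tsum_eq hsupp
    rw [hf] at h1
    rw [← h1]
    have h2 : ∀ m : ℕ, (fun n : ℕ => 1 / (n : ℝ) ^ 3 * (if (q : ℤ) ∣ (n : ℤ) - a then c else 0))
      (a + q * m) = c / (q : ℝ) ^ 3 * (1 / ((m : ℝ) + a / q) ^ 3) := by
      intro m
      have := hval m
      rw [hf] at this
      exact this
    rw [tsum_congr h2, tsum_mul_left]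
    rfl

lemma dvd_iff' (q a : ℕ) (haq : a < q) (n : ℕ) :
    (q : ℤ) ∣ (n : ℤ) + a ↔ (q : ℤ) ∣ (n : ℤ) - ((q - a : ℕ) : ℤ) := by
  have h1 : ((q - a : ℕ) : ℤ) = q - a := by
    rw [Nat.cast_sub haq.le]
  rw [h1]
  constructor
  · rintro ⟨k, hk⟩
    exact ⟨k - 1, by rw [mul_sub, ← hk]; ring⟩
  · rintro ⟨k, hk⟩
    exact ⟨k + 1, by rw [mul_add, ← hk]; ring⟩

/-- the coefficient of `π ^ 3` in `ζ(3, a / q) - ζ(3, 1 - a / q)` -/
noncomputable def cf (a q : ℕ) : ℝ :=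
  4 * (q : ℝ) ^ 2 / 3 * ∑ b ∈ range q, sin (2 * π * b * a / q) * B3 (b / q)

theorem hz_sub (q a : ℕ) (ha0 : 0 < a) (haq : a < q) :
    hz (a / q) - hz (1 - a / q) = cf a q * π ^ 3 := by
  have hq0 : 0 < q := ha0.trans haq
  have hqR : (0 : ℝ) < q := by exact_mod_cast hq0
  have h1 : HasSum (fun n : ℕ => ∑ b ∈ range q, sin (2 * π * b * a / q) *
      (1 / (n : ℝ) ^ 3 * sin (2 * π * n * ((b : ℝ) / q))))
      (∑ b ∈ range q, sin (2 * π * b * a / q) * (2 / 3 * π ^ 3 * B3 (b / q))) := by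
    apply hasSum_sum
    intro b hb
    apply HasSum.mul_left
    apply hasSum_sin
    rw [mem_range] at hb
    constructor
    · positivity
    · rw [div_le_one hqR]
      exact_mod_cast hb.le
  obtain ⟨s1, t1⟩ := tsum_class q a ha0 haq ((q : ℝ) / 2)
  obtain ⟨s2, t2⟩ := tsum_class q (q - a) (by omega) (by omega) ((q : ℝ) / 2)
  have h2 : ∀ n : ℕ, ∑ b ∈ range q, sin (2 * π * b * a / q) *
      (1 / (n : ℝ) ^ 3 * sin (2 * π * n * ((b : ℝ) / q))) =
      1 / (n : ℝ) ^ 3 * (if (q : ℤ) ∣ (n : ℤ) - a then (q : ℝ) / 2 else 0) -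
      1 / (n : ℝ) ^ 3 * (if (q : ℤ) ∣ (n : ℤ) - ((q - a : ℕ) : ℤ) then (q : ℝ) / 2 else 0) := by
    intro n
    have h3 := sum_sin_sin q hq0 a n
    have h4 : ∑ b ∈ range q, sin (2 * π * b * a / q) *
      (1 / (n : ℝ) ^ 3 * sin (2 * π * n * ((b : ℝ) / q))) = 1 / (n : ℝ) ^ 3 *
      ∑ b ∈ range q, sin (2 * π * b * ((a : ℤ) : ℝ) / q) * sin (2 * π * b * ((n : ℤ) : ℝ) / q) := by
      rw [mul_sum]
      apply sum_congr rfl
      intro b _
      rw [Int.cast_natCast, Int.cast_natCast]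
      have e : 2 * π * n * ((b : ℝ) / q) = 2 * π * b * n / q := by ring
      rw [e]
      ring
    rw [h4, h3, mul_sub]
    congr 2
    exact if_congr (dvd_iff' q a haq n) rfl rfl
  have h5 := h1.tsum_eq
  rw [tsum_congr h2, s1.tsum_sub s2, t1, t2] at h5
  have e1 : ((q - a : ℕ) : ℝ) / q = 1 - a / q := by
    rw [Nat.cast_sub haq.le]
    field_simp
  rw [e1] at h5
  obtain ⟨S₀, hS⟩ : ∃ S₀ : ℝ, S₀ = ∑ b ∈ range q, sin (2 * π * b * a / q) * B3 (b / q) := ⟨_, rfl⟩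
  obtain ⟨d, hd⟩ : ∃ d : ℝ, d = hz (a / q) - hz (1 - a / q) := ⟨_, rfl⟩
  have e2 : (q : ℝ) / 2 / (q : ℝ) ^ 3 * d = 2 / 3 * π ^ 3 * S₀ := by
    rw [hd, mul_sub, h5, hS, mul_sum]
    apply sum_congr rfl
    intro b _
    ring
  unfold cf
  rw [← hS, ← hd]
  have e3 : d = 2 * (q : ℝ) ^ 2 * ((q : ℝ) / 2 / (q : ℝ) ^ 3 * d) := by
    field_simp
  rw [e3, e2]
  ring

end Pool.Agent.X142.HZ
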